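import Pool.Agent.Lib.MP_825ff6_co.Defs

set_option autoImplicit false

namespace Pool.Agent.Lib.MP_825ff6_co

open MeasureTheory Set Pointwise Metric

variable {E : Type*} [NormedAddCommGroup E] [NormedSpace ℝ E]

theorem homothet_eq (K : Set E) (t : E) (r : ℝ) : homothet K t r = t +ᵥ (r • K) := by
  ext z
  simp only [homothet, Set.mem_ofPred_eq, mem_vadd_set, mem_smul_set, vadd_eq_add]
  constructor
  · rintro ⟨k, hk, rfl⟩
    exact ⟨r • k, ⟨k, hk, rfl⟩, rfl⟩
  · rintro ⟨_, ⟨k, hk, rfl⟩, rfl⟩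
    exact ⟨k, hk, rfl⟩

/-- A finite cover exists. -/
theorem exists_cover {K : Set E} (hK : IsCompact K) (hne : (interior K).Nonempty) {r : ℝ}
    (hr : 0 < r) : ∃ T : Finset E, ∀ x ∈ K, ∃ t ∈ T, x ∈ homothet K t r := by
  obtain ⟨c, hc⟩ := hne
  have hopen : ∀ t : E, IsOpen (t +ᵥ (r • interior K)) := fun t =>
    (isOpen_interior.smul₀ hr.ne').vadd t
  have hcov : K ⊆ ⋃ t : E, t +ᵥ (r • interior K) := by
    intro x _
    refine mem_iUnion.2 ⟨x - r • c, ?_⟩
    exact ⟨r • c, ⟨c, hc, rfl⟩, by simp⟩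
  obtain ⟨T, hT⟩ := hK.elim_finite_subcover _ hopen hcov
  refine ⟨T, fun x hx => ?_⟩
  obtain ⟨t, ht, hxt⟩ := mem_iUnion₂.1 (hT hx)
  refine ⟨t, ht, ?_⟩
  rw [homothet_eq]
  exact vadd_set_mono (smul_set_mono interior_subset) hxt

theorem coveringNumber_spec {K : Set E} (hK : IsCompact K) (hne : (interior K).Nonempty) {r : ℝ}
    (hr : 0 < r) : ∃ T : Finset E, T.card = coveringNumber K r ∧
      ∀ x ∈ K, ∃ t ∈ T, x ∈ homothet K t r := by
  have h : {n : ℕ | ∃ T : Finset E, T.card = n ∧ ∀ x ∈ K, ∃ t ∈ T, x ∈ homothet K t r}.Nonempty := by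
    obtain ⟨T, hT⟩ := exists_cover hK hne hr
    exact ⟨T.card, T, rfl, hT⟩
  exact Nat.sInf_mem h

variable [MeasurableSpace E] [BorelSpace E] [FiniteDimensional ℝ E] (μ : Measure E)
  [μ.IsAddHaarMeasure]

/-- Points in at least two of finitely many sets. -/
theorem measure_overlap_le {ι : Type*} (T : Finset ι) (S : ι → Set E)
    (hS : ∀ i ∈ T, MeasurableSet (S i)) (K : Set E) (hK : MeasurableSet K)
    (hcov : ∀ x ∈ K, ∃ i ∈ T, x ∈ S i) (D : Set E) (hD : MeasurableSet D)
    (hDT : ∀ x ∈ D, ∃ i ∈ T, ∃ j ∈ T, i ≠ j ∧ x ∈ S i ∧ x ∈ S j) :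
    μ D + μ K ≤ ∑ i ∈ T, μ (S i) := by
  classical
  have h1 : ∀ x, D.indicator (fun _ => (1 : ENNReal)) x + K.indicator (fun _ => (1 : ENNReal)) x ≤
      ∑ i ∈ T, (S i).indicator (fun _ => (1 : ENNReal)) x := by
    intro x
    by_cases hxD : x ∈ D
    · obtain ⟨i, hi, j, hj, hij, hxi, hxj⟩ := hDT x hxD
      have h2 : ∑ l ∈ ({i, j} : Finset ι), (S l).indicator (fun _ => (1 : ENNReal)) x ≤
          ∑ l ∈ T, (S l).indicator (fun _ => (1 : ENNReal)) x := by
        apply Finset.sum_le_sum_of_subset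
        intro l hl
        simp only [Finset.mem_insert, Finset.mem_singleton] at hl
        rcases hl with rfl | rfl
        · exact hi
        · exact hj
      rw [Finset.sum_pair hij, indicator_of_mem hxi, indicator_of_mem hxj] at h2
      refine le_trans ?_ h2
      rw [indicator_of_mem hxD]
      gcongr
      exact indicator_le_self' (fun _ _ => zero_le) x
    · rw [indicator_of_notMem hxD, zero_add]
      by_cases hxK : x ∈ K
      · obtain ⟨i, hi, hxi⟩ := hcov x hxK
        rw [indicator_of_mem hxK]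
        have h2 := Finset.single_le_sum (f := fun l => (S l).indicator (fun _ => (1 : ENNReal)) x)
          (fun _ _ => zero_le) hi
        simp only [indicator_of_mem hxi] at h2
        exact h2
      · rw [indicator_of_notMem hxK]
        exact zero_le
  have h3 := lintegral_mono (μ := μ) h1
  rw [lintegral_add_left (measurable_const.indicator hD)] at h3
  rw [lintegral_finsetSum' T (fun i hi => (measurable_const.indicator (hS i hi)).aemeasurable)] at h3
  rw [lintegral_indicator_const hD, lintegral_indicator_const hK, one_mul, one_mul] at h3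
  refine h3.trans (le_of_eq ?_)
  refine Finset.sum_congr rfl fun i hi => ?_
  rw [lintegral_indicator_const (hS i hi), one_mul]

end Pool.Agent.Lib.MP_825ff6_co
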