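import Mathlib

/-!
Covering numbers `N(K, r K)` and tightly covered convex bodies.
-/

set_option autoImplicit false

namespace Pool.Agent.Lib.MP_825ff6_co

/-- The homothet `t + r K` of `K` with ratio `r`. -/
def homothet {E : Type*} [AddCommGroup E] [Module ℝ E] (K : Set E) (t : E) (r : ℝ) : Set E :=
  {z | ∃ k ∈ K, z = t + r • k}

/-- The covering number `N(K, r K)`: the least number of homothets of `K` with ratio `r` whose
union contains `K`. -/
noncomputable def coveringNumber {E : Type*} [AddCommGroup E] [Module ℝ E] (K : Set E) (r : ℝ) :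
    ℕ :=
  sInf {n : ℕ | ∃ T : Finset E, T.card = n ∧ ∀ x ∈ K, ∃ t ∈ T, x ∈ homothet K t r}

/-- `K` is tightly covered: for every ratio `0 < r < 1` there are `N(K, r K)` points of `K` no two
of which lie in one homothet of `K` with ratio `r`. -/
def TightlyCovered {E : Type*} [AddCommGroup E] [Module ℝ E] (K : Set E) : Prop :=
  ∀ r : ℝ, 0 < r → r < 1 → ∃ P : Finset E, (P : Set E) ⊆ K ∧ P.card = coveringNumber K r ∧
    ∀ t : E, ∀ x ∈ P, ∀ y ∈ P, x ∈ homothet K t r → y ∈ homothet K t r → x = y

end Pool.Agent.Lib.MP_825ff6_co
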