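import Pool.Agent.Lib.MP_825ff6_co.Window

set_option autoImplicit false

namespace Pool.Agent.Lib.MP_825ff6_co

open MeasureTheory Set Pointwise Metric Filter Topology

variable {E : Type*} [NormedAddCommGroup E] [NormedSpace ℝ E] [MeasurableSpace E] [BorelSpace E]
  [FiniteDimensional ℝ E]

/-- Compactness: large windows without fat overlap give a tiling of the whole space. -/
theorem exists_tiling_of_windows {K : Set E} (hK : IsCompact K)
    (hwin : ∀ R s : ℝ, 0 < R → 0 < s →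
      ∃ Y : Set E, (∀ w ∈ closedBall (0 : E) R, ∃ y ∈ Y, w - y ∈ K) ∧
      ∀ y ∈ Y, ∀ y' ∈ Y, y ≠ y' → ∀ w : E, ball w s ⊆ closedBall (0 : E) R →
        ¬ ∀ v ∈ ball w s, v - y ∈ K ∧ v - y' ∈ K) :
    ∃ L : Set E, (⋃ t ∈ L, t +ᵥ K) = univ ∧
      ∀ s ∈ L, ∀ t ∈ L, s ≠ t → Disjoint (interior (s +ᵥ K)) (interior (t +ᵥ K)) := by
  have h1 : ∀ j : ℕ, ∃ Y : Set E,
      (∀ w ∈ closedBall (0 : E) (j + 1 : ℝ), ∃ y ∈ Y, w - y ∈ K) ∧
      ∀ y ∈ Y, ∀ y' ∈ Y, y ≠ y' → ∀ w : E,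
        ball w (1 / (j + 1 : ℝ)) ⊆ closedBall (0 : E) (j + 1 : ℝ) →
        ¬ ∀ v ∈ ball w (1 / (j + 1 : ℝ)), v - y ∈ K ∧ v - y' ∈ K := fun j =>
    hwin _ _ (by positivity) (by positivity)
  choose Y hY1 hY2 using h1
  set U : Ultrafilter ℕ := hyperfilter ℕ with hU
  have hUle : (U : Filter ℕ) ≤ atTop := by
    rw [hU, ← Nat.cofinite_eq_atTop]
    exact hyperfilter_le_cofinite
  set L : Set E := {t | ∀ ε : ℝ, 0 < ε → ∀ᶠ j in (U : Filter ℕ), ∃ y ∈ Y j, dist y t < ε} with hL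
  refine ⟨L, ?_, ?_⟩
  · rw [eq_univ_iff_forall]
    intro z
    -- choose tiles of `Y j` containing `z`
    have h2 : ∀ j : ℕ, ∃ y : E, z - y ∈ K ∨ ‖z‖ > j + 1 := fun j => by
      by_cases hj : ‖z‖ ≤ j + 1
      · obtain ⟨y, _, hy⟩ := hY1 j z (by simpa using hj)
        exact ⟨y, Or.inl hy⟩
      · exact ⟨0, Or.inr (not_le.1 hj)⟩
    have h3 : ∀ j : ℕ, ∃ y : E, ‖z‖ ≤ j + 1 → (y ∈ Y j ∧ z - y ∈ K) := fun j => by
      by_cases hj : ‖z‖ ≤ j + 1
      · obtain ⟨y, hy1, hy⟩ := hY1 j z (by simpa using hj)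
        exact ⟨y, fun _ => ⟨hy1, hy⟩⟩
      · exact ⟨0, fun h => absurd h hj⟩
    choose f hf using h3
    have hev : ∀ᶠ j : ℕ in (U : Filter ℕ), ‖z‖ ≤ (j : ℝ) + 1 := by
      apply hUle
      filter_upwards [eventually_ge_atTop ⌈‖z‖⌉₊] with j hj
      have := Nat.le_of_ceil_le hj
      linarith
    have hcomp : IsCompact ({z} - K) := by
      rw [sub_eq_add_neg]
      exact isCompact_singleton.add hK.neg
    obtain ⟨t, ht, htU⟩ := hcomp.ultrafilter_le_nhds (U.map f) (by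
      rw [le_principal_iff]
      change ∀ᶠ j in (U : Filter ℕ), f j ∈ {z} - K
      filter_upwards [hev] with j hj
      exact ⟨z, rfl, z - f j, (hf j hj).2, by simp⟩)
    obtain ⟨_, rfl, k, hk, hkt⟩ := ht
    refine mem_iUnion₂.2 ⟨t, ?_, ⟨k, hk, ?_⟩⟩
    · intro ε hε
      have h4 : ∀ᶠ y in (U.map f : Filter E), dist y t < ε := htU (ball_mem_nhds t hε)
      have h5 : ∀ᶠ j in (U : Filter ℕ), dist (f j) t < ε := h4
      filter_upwards [hev, h5] with j hj hj'
      exact ⟨f j, (hf j hj).1, hj'⟩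
    · simp only [vadd_eq_add]
      rw [← hkt]
      simp
  · intro s hs t ht hst
    rw [Set.disjoint_left]
    intro p hps hpt
    have hint : ∀ a : E, p ∈ interior (a +ᵥ K) → ∃ ε > 0, ball (p - a) ε ⊆ K := by
      intro a ha
      obtain ⟨ε, hε, hb⟩ := Metric.isOpen_iff.1 isOpen_interior p ha
      refine ⟨ε, hε, fun v hv => ?_⟩
      have h6 : a + v ∈ ball p ε := by
        rw [mem_ball, dist_eq_norm] at hv ⊢
        have : a + v - p = v - (p - a) := by abel
        rwa [this]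
      obtain ⟨k, hk, hka⟩ := interior_subset (hb h6)
      have : k = v := by simpa using hka
      exact this ▸ hk
    obtain ⟨ε₁, hε₁, hb₁⟩ := hint s hps
    obtain ⟨ε₂, hε₂, hb₂⟩ := hint t hpt
    set ε := min (min (ε₁ / 2) (ε₂ / 2)) (dist s t / 2) with hε
    have hst' : 0 < dist s t := dist_pos.2 hst
    have hε0 : 0 < ε := by
      rw [hε]
      exact lt_min (lt_min (by positivity) (by positivity)) (by positivity)
    have he1 : ε ≤ ε₁ / 2 := (min_le_left _ _).trans (min_le_left _ _)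
    have he2 : ε ≤ ε₂ / 2 := (min_le_left _ _).trans (min_le_right _ _)
    have he3 : ε ≤ dist s t / 2 := min_le_right _ _
    have hev : ∀ᶠ j : ℕ in (U : Filter ℕ), ‖p‖ + 1 ≤ (j : ℝ) + 1 ∧ 1 / ((j : ℝ) + 1) ≤ ε := by
      apply hUle
      filter_upwards [eventually_ge_atTop (max ⌈‖p‖ + 1⌉₊ ⌈1 / ε⌉₊)] with j hj
      have h7 := Nat.le_of_ceil_le ((le_max_left _ _).trans hj)
      have h8 := Nat.le_of_ceil_le ((le_max_right _ _).trans hj)
      constructor
      · linarith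
      · rw [div_le_iff₀ (by positivity)]
        rw [div_le_iff₀ hε0] at h8
        nlinarith
    obtain ⟨j, ⟨hj1, hj2⟩, ⟨y, hy, hys⟩, ⟨y', hy', hyt⟩⟩ :=
      (hev.and ((hs ε hε0).and (ht ε hε0))).exists
    refine hY2 j y hy y' hy' ?_ p ?_ ?_
    · rintro rfl
      have : dist s t ≤ dist y s + dist y t := dist_triangle_left _ _ _
      linarith
    · intro v hv
      rw [mem_closedBall, dist_zero_right]
      have h9 : dist v p < 1 / ((j : ℝ) + 1) := hv
      have h10 : 1 / ((j : ℝ) + 1) ≤ 1 := by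
        rw [div_le_one (by positivity)]
        have : (0 : ℝ) ≤ j := Nat.cast_nonneg j
        linarith
      have h11 : ‖v‖ ≤ dist v p + ‖p‖ := by
        have := norm_add_le (v - p) p
        rw [sub_add_cancel] at this
        rwa [dist_eq_norm]
      linarith
    · intro v hv
      have h9 : dist v p < 1 / ((j : ℝ) + 1) := hv
      have key : ∀ a b : E, dist b a < ε → ∀ η : ℝ, ε ≤ η / 2 → ball (p - a) η ⊆ K → v - b ∈ K := by
        intro a b hab η hη hb
        apply hb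
        rw [mem_ball, dist_eq_norm]
        have h12 : v - b - (p - a) = (v - p) - (b - a) := by abel
        rw [h12]
        calc ‖(v - p) - (b - a)‖ ≤ ‖v - p‖ + ‖b - a‖ := norm_sub_le _ _
          _ < η := by
            rw [← dist_eq_norm, ← dist_eq_norm]
            linarith
      exact ⟨key s y hys ε₁ he1 hb₁, key t y' hyt ε₂ he2 hb₂⟩

end Pool.Agent.Lib.MP_825ff6_co
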