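import Pool.Agent.Lib.MP_825ff6_co.Basic

set_option autoImplicit false

namespace Pool.Agent.Lib.MP_825ff6_co

open MeasureTheory Set Pointwise Metric Filter Topology

variable {E : Type*} [NormedAddCommGroup E] [NormedSpace ℝ E]

/-- `K + r M` has nearly the volume of `K` for small `r`. -/
theorem exists_small_ratio [MeasurableSpace E] [BorelSpace E] [FiniteDimensional ℝ E]
    (μ : Measure E) [μ.IsAddHaarMeasure] {K M : Set E} (hK : IsCompact K) (hM : IsCompact M)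
    {δ : ENNReal} (hδ : 0 < δ) :
    ∃ r₀ : ℝ, 0 < r₀ ∧ ∀ r : ℝ, 0 < r → r < r₀ → μ (K + r • M) ≤ μ K + δ := by
  obtain ⟨C, hC⟩ := hM.isBounded.subset_closedBall 0
  set C' := max C 1 with hC'
  have hC'1 : 0 < C' := lt_of_lt_of_le one_pos (le_max_right _ _)
  have hMC : M ⊆ closedBall 0 C' := hC.trans (closedBall_subset_closedBall (le_max_left _ _))
  have ht := tendsto_measure_cthickening_of_isCompact (μ := μ) hK
  have hlt : μ K < μ K + δ := ENNReal.lt_add_right hK.measure_lt_top.ne hδ.ne'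
  have hev : ∀ᶠ r in 𝓝 (0 : ℝ), μ (cthickening r K) < μ K + δ := ht.eventually_lt_const hlt
  obtain ⟨ε, hε, hball⟩ := Metric.eventually_nhds_iff.1 hev
  refine ⟨ε / C', div_pos hε hC'1, fun r hr hrlt => ?_⟩
  have hrC : r * C' < ε := by rwa [lt_div_iff₀ hC'1] at hrlt
  have h1 : μ (cthickening (r * C') K) < μ K + δ := by
    apply hball
    rw [Real.dist_eq, sub_zero, abs_of_pos (by positivity)]
    exact hrC
  refine le_trans (measure_mono ?_) h1.le
  rintro _ ⟨k, hk, _, ⟨m, hm, rfl⟩, rfl⟩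
  refine mem_cthickening_of_dist_le _ k _ K hk ?_
  have hm' : ‖m‖ ≤ C' := by simpa using hMC hm
  simp only [dist_eq_norm]
  rw [add_sub_cancel_left, norm_smul, Real.norm_of_nonneg hr.le]
  gcongr

/-- The packing inequality. -/
theorem card_mul_le [MeasurableSpace E] [BorelSpace E] [FiniteDimensional ℝ E]
    (μ : Measure E) [μ.IsAddHaarMeasure] {K M : Set E} (hM : IsCompact M) {r : ℝ}
    (P : Finset E) (hP : (P : Set E) ⊆ K)
    (hdis : ∀ x ∈ P, ∀ y ∈ P, x ≠ y → Disjoint (x +ᵥ (r • M)) (y +ᵥ (r • M))) :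
    (P.card : ENNReal) * μ (r • M) ≤ μ (K + r • M) := by
  have h1 : μ (⋃ x ∈ P, x +ᵥ (r • M)) = ∑ x ∈ P, μ (x +ᵥ (r • M)) := by
    apply measure_biUnion_finset
    · intro x hx y hy hxy
      exact hdis x hx y hy hxy
    · intro x _
      exact ((hM.smul r).vadd x).isClosed.measurableSet
  have h2 : ∑ x ∈ P, μ (x +ᵥ (r • M)) = (P.card : ENNReal) * μ (r • M) := by
    rw [Finset.sum_congr rfl (fun x _ => measure_vadd μ x (r • M)), Finset.sum_const, nsmul_eq_mul]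
  rw [← h2, ← h1]
  apply measure_mono
  intro z hz
  obtain ⟨x, hx, w, hw, rfl⟩ := mem_iUnion₂.1 hz
  exact ⟨x, hP hx, w, hw, rfl⟩

theorem disjoint_neg {K : Set E} {r : ℝ} (P : Finset E)
    (hP : ∀ t : E, ∀ x ∈ P, ∀ y ∈ P, x ∈ homothet K t r → y ∈ homothet K t r → x = y) :
    ∀ x ∈ P, ∀ y ∈ P, x ≠ y → Disjoint (x +ᵥ (r • (-K))) (y +ᵥ (r • (-K))) := by
  intro x hx y hy hxy
  rw [Set.disjoint_left]
  rintro z ⟨_, ⟨a, ha, rfl⟩, rfl⟩ ⟨_, ⟨b, hb, rfl⟩, hz⟩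
  refine hxy (hP (x + r • a) x hx y hy ⟨-a, ha, by simp⟩ ⟨-b, hb, ?_⟩)
  simp only [vadd_eq_add] at hz
  rw [← hz]
  simp

theorem disjoint_half {K : Set E} (hKc : Convex ℝ K) {r : ℝ} (P : Finset E)
    (hP : ∀ t : E, ∀ x ∈ P, ∀ y ∈ P, x ∈ homothet K t r → y ∈ homothet K t r → x = y) :
    ∀ x ∈ P, ∀ y ∈ P, x ≠ y →
      Disjoint (x +ᵥ (r • ((1 / 2 : ℝ) • (K - K)))) (y +ᵥ (r • ((1 / 2 : ℝ) • (K - K)))) := by
  intro x hx y hy hxy
  rw [Set.disjoint_left]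
  rintro z ⟨_, ⟨_, ⟨_, ⟨a, ha, b, hb, rfl⟩, rfl⟩, rfl⟩, rfl⟩
    ⟨_, ⟨_, ⟨_, ⟨c, hc, d, hd, rfl⟩, rfl⟩, rfl⟩, hz⟩
  have h1 : (1 / 2 : ℝ) • c + (1 / 2 : ℝ) • b ∈ K :=
    hKc hc hb (by norm_num) (by norm_num) (by norm_num)
  have h2 : (1 / 2 : ℝ) • d + (1 / 2 : ℝ) • a ∈ K :=
    hKc hd ha (by norm_num) (by norm_num) (by norm_num)
  simp only [vadd_eq_add] at hz
  have hy' : y = x + r • ((1 / 2 : ℝ) • (a - b)) - r • ((1 / 2 : ℝ) • (c - d)) :=
    eq_sub_of_add_eq hz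
  refine hxy (hP (x - r • ((1 / 2 : ℝ) • c + (1 / 2 : ℝ) • b)) x hx y hy
    ⟨_, h1, by abel⟩ ⟨_, h2, ?_⟩)
  rw [hy']
  simp only [smul_add, smul_sub]
  abel

variable [MeasurableSpace E] [BorelSpace E] [FiniteDimensional ℝ E]
    (μ : Measure E) [μ.IsAddHaarMeasure]

/-- Volume bound: a cover by `N` homothets of ratio `r` has `μ K ≤ N μ (r K)`. -/
theorem measure_le_card_mul {K : Set E} {r : ℝ} (T : Finset E)
    (hT : ∀ x ∈ K, ∃ t ∈ T, x ∈ homothet K t r) :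
    μ K ≤ (T.card : ENNReal) * μ (r • K) := by
  have h1 : K ⊆ ⋃ t ∈ T, t +ᵥ (r • K) := by
    intro x hx
    obtain ⟨t, ht, hxt⟩ := hT x hx
    rw [homothet_eq] at hxt
    exact mem_iUnion₂.2 ⟨t, ht, hxt⟩
  refine (measure_mono h1).trans ((measure_biUnion_finset_le _ _).trans ?_)
  rw [Finset.sum_congr rfl (fun x _ => measure_vadd μ x (r • K)), Finset.sum_const, nsmul_eq_mul]

/-- A tightly covered body has a difference body of minimal volume. -/
theorem measure_half_diff_le {K : Set E} (hKc : Convex ℝ K) (hK : IsCompact K)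
    (hne : (interior K).Nonempty) (h : TightlyCovered K) :
    μ ((1 / 2 : ℝ) • (K - K)) ≤ μ K := by
  have hμpos : μ K ≠ 0 := by
    have : 0 < μ (interior K) := isOpen_interior.measure_pos μ hne
    exact (this.trans_le (measure_mono interior_subset)).ne'
  have hμfin : μ K ≠ ⊤ := hK.measure_lt_top.ne
  set M := (1 / 2 : ℝ) • (K - K) with hM
  have hMc : IsCompact M := by
    rw [hM, sub_eq_add_neg]
    exact (hK.add hK.neg).smul _
  refine ENNReal.le_of_forall_pos_le_add fun δ hδ _ => ?_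
  obtain ⟨r₀, hr₀, hr⟩ := exists_small_ratio μ hK hMc (δ := (δ : ENNReal)) (by exact_mod_cast hδ)
  obtain ⟨r, hr0, hrlt⟩ := exists_between (lt_min hr₀ one_pos)
  have hr1 : r < 1 := hrlt.trans_le (min_le_right _ _)
  have hrr : r < r₀ := hrlt.trans_le (min_le_left _ _)
  obtain ⟨T, hTc, hT⟩ := coveringNumber_spec hK hne hr0
  obtain ⟨P, hPK, hPc, hP⟩ := h r hr0 hr1
  have h1 := measure_le_card_mul μ T hT
  have h2 := card_mul_le μ hMc P hPK (disjoint_half hKc P hP)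
  rw [hTc, μ.addHaar_smul_of_nonneg hr0.le] at h1
  rw [hPc, μ.addHaar_smul_of_nonneg hr0.le] at h2
  have h3 : 1 ≤ (coveringNumber K r : ENNReal) * ENNReal.ofReal (r ^ Module.finrank ℝ E) := by
    rw [← mul_assoc] at h1
    by_contra hlt
    push Not at hlt
    have h4 := (ENNReal.mul_lt_mul_iff_left hμpos hμfin).2 hlt
    rw [one_mul] at h4
    exact absurd h1 (not_le.2 h4)
  calc μ M = 1 * μ M := (one_mul _).symm
    _ ≤ (coveringNumber K r : ENNReal) * ENNReal.ofReal (r ^ Module.finrank ℝ E) * μ M := by gcongr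
    _ = (coveringNumber K r : ENNReal) * (ENNReal.ofReal (r ^ Module.finrank ℝ E) * μ M) := by
        rw [mul_assoc]
    _ ≤ μ (K + r • M) := h2
    _ ≤ μ K + δ := hr r hr0 hrr

end Pool.Agent.Lib.MP_825ff6_co
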