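import Pool.Agent.Lib.MP_825ff6_co.Volume

set_option autoImplicit false

namespace Pool.Agent.Lib.MP_825ff6_co

open MeasureTheory Set Pointwise Metric Filter Topology

variable {E : Type*} [NormedAddCommGroup E] [NormedSpace ℝ E] [MeasurableSpace E] [BorelSpace E]
  [FiniteDimensional ℝ E] (μ : Measure E) [μ.IsAddHaarMeasure]

/-- Averaging: some window contains at most its share of a closed set. -/
theorem exists_small_window {D A : Set E} (hD : IsClosed D) (hA0 : μ A ≠ 0)
    (hA1 : μ A ≠ ⊤) (η : ℝ) :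
    ∃ z ∈ A, μ (D ∩ closedBall z η) ≤ μ (closedBall (0 : E) η) * μ D / μ A := by
  set s : Set (E × E) := {p | p.2 ∈ D ∧ dist p.2 p.1 ≤ η} with hs
  have hsc : IsClosed s :=
    (hD.preimage continuous_snd).inter (isClosed_le (continuous_snd.dist continuous_fst)
      continuous_const)
  have hsm : MeasurableSet s := hsc.measurableSet
  have hf : Measurable fun z : E => μ (D ∩ closedBall z η) := measurable_measure_prodMk_left hsm
  obtain ⟨z, hzA, hz⟩ := exists_le_setLAverage hA0 hA1 (hf.aemeasurable (μ := μ.restrict A))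
  refine ⟨z, hzA, hz.trans ?_⟩
  rw [setLAverage_eq]
  gcongr
  calc ∫⁻ a in A, μ (D ∩ closedBall a η) ∂μ ≤ ∫⁻ a, μ (D ∩ closedBall a η) ∂μ :=
        setLIntegral_le_lintegral _ _
    _ = (μ.prod μ) s := (Measure.prod_apply hsm).symm
    _ = ∫⁻ y, μ ((fun x => (x, y)) ⁻¹' s) ∂μ := Measure.prod_apply_symm hsm
    _ ≤ ∫⁻ y, D.indicator (fun _ => μ (closedBall (0 : E) η)) y ∂μ := by
        refine lintegral_mono fun y => ?_
        by_cases hy : y ∈ D
        · simp only [indicator_of_mem hy]
          rw [← Measure.addHaar_closedBall_center μ y η]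
          refine measure_mono fun x hx => ?_
          rw [mem_closedBall, dist_comm]
          exact hx.2
        · simp only [indicator_of_notMem hy]
          refine (measure_mono_null (fun x hx => ?_) measure_empty).le
          exact absurd hx.1 hy
    _ = μ (closedBall (0 : E) η) * μ D := lintegral_indicator_const hD.measurableSet _

/-- The doubly covered set of an optimal cover is small when the ratio is small. -/
theorem exists_small_overlap {K : Set E} (hK : IsCompact K)
    (hne : (interior K).Nonempty) (h : TightlyCovered K) {δ : ENNReal} (hδ : 0 < δ) :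
    ∃ r₀ : ℝ, 0 < r₀ ∧ ∀ r : ℝ, 0 < r → r < r₀ → ∃ T : Finset E,
      (∀ x ∈ K, ∃ t ∈ T, x ∈ homothet K t r) ∧
      μ (⋃ i ∈ T, ⋃ j ∈ T, ⋃ (_ : i ≠ j), homothet K i r ∩ homothet K j r) ≤ δ := by
  obtain ⟨r₀, hr₀, hr⟩ := exists_small_ratio μ hK hK.neg hδ
  refine ⟨min r₀ 1, lt_min hr₀ one_pos, fun r hr0 hrlt => ?_⟩
  have hr1 : r < 1 := hrlt.trans_le (min_le_right _ _)
  have hrr : r < r₀ := hrlt.trans_le (min_le_left _ _)
  obtain ⟨T, hTc, hT⟩ := coveringNumber_spec hK hne hr0
  obtain ⟨P, hPK, hPc, hP⟩ := h r hr0 hr1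
  refine ⟨T, hT, ?_⟩
  have hclosed : ∀ t : E, IsClosed (homothet K t r) := fun t => by
    rw [homothet_eq]
    exact ((hK.smul r).vadd t).isClosed
  have h2 := card_mul_le μ hK.neg P hPK (disjoint_neg P hP)
  rw [hPc, μ.addHaar_smul_of_nonneg hr0.le, Measure.measure_neg] at h2
  set D := ⋃ i ∈ T, ⋃ j ∈ T, ⋃ (_ : i ≠ j), homothet K i r ∩ homothet K j r with hD
  have hDc : IsClosed D := by
    refine isClosed_biUnion_finset fun i _ => isClosed_biUnion_finset fun j _ => ?_
    by_cases hij : i = j
    · simp [hij]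
    · simp only [ne_eq, hij, not_false_eq_true, iUnion_true]
      exact (hclosed i).inter (hclosed j)
  have h3 := measure_overlap_le μ T (fun t => homothet K t r)
    (fun t _ => (hclosed t).measurableSet) K hK.isClosed.measurableSet hT D
    hDc.measurableSet (by
      intro x hx
      simp only [hD, mem_iUnion] at hx
      obtain ⟨i, hi, j, hj, hij, hxi, hxj⟩ := hx
      exact ⟨i, hi, j, hj, hij, hxi, hxj⟩)
  have h4 : ∑ i ∈ T, μ (homothet K i r) =
      (T.card : ENNReal) * (ENNReal.ofReal (r ^ Module.finrank ℝ E) * μ K) := by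
    rw [← μ.addHaar_smul_of_nonneg hr0.le, ← nsmul_eq_mul, ← Finset.sum_const]
    refine Finset.sum_congr rfl fun i _ => ?_
    rw [homothet_eq, measure_vadd]
  rw [h4, hTc] at h3
  have h5 : μ D + μ K ≤ δ + μ K := by
    rw [add_comm δ]
    exact h3.trans (h2.trans (hr r hr0 hrr))
  exact (ENNReal.add_le_add_iff_right hK.measure_lt_top.ne).1 h5

/-- Key lemma: large windows with a cover by translates of `K` which has no fat overlap. -/
theorem exists_window {K : Set E} (hK : IsCompact K)
    (hne : (interior K).Nonempty) (h : TightlyCovered K) {R s : ℝ} (hR : 0 < R) (hs : 0 < s) :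
    ∃ Y : Set E, (∀ w ∈ closedBall (0 : E) R, ∃ y ∈ Y, w - y ∈ K) ∧
      ∀ y ∈ Y, ∀ y' ∈ Y, y ≠ y' → ∀ w : E, ball w s ⊆ closedBall (0 : E) R →
        ¬ ∀ v ∈ ball w s, v - y ∈ K ∧ v - y' ∈ K := by
  let μ : Measure E := Measure.addHaar
  obtain ⟨c, hc⟩ := hne
  obtain ⟨ρ, hρ, hball⟩ := Metric.isOpen_iff.1 isOpen_interior c hc
  set A : Set E := ball c (ρ / 2) with hA
  have hA0 : μ A ≠ 0 := (measure_ball_pos μ c (by positivity)).ne'
  have hA1 : μ A ≠ ⊤ := measure_ball_lt_top.ne
  set B : ENNReal := μ (ball (0 : E) 1) with hB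
  have hB0 : B ≠ 0 := (measure_ball_pos μ 0 one_pos).ne'
  have hB1 : B ≠ ⊤ := measure_ball_lt_top.ne
  set n := Module.finrank ℝ E with hn
  -- the overlap bound
  set δ : ENNReal := μ A * ENNReal.ofReal ((s / R) ^ n / 2) with hδ
  have hδ0 : 0 < δ := by
    rw [hδ]
    refine ENNReal.mul_pos hA0 (ENNReal.ofReal_pos.2 (by positivity)).ne'
  obtain ⟨r₀, hr₀, hr⟩ := exists_small_overlap μ hK ⟨c, hc⟩ h hδ0
  obtain ⟨r, hr0, hrlt⟩ := exists_between (lt_min hr₀ (show 0 < ρ / (2 * R) by positivity))
  have hrr : r < r₀ := hrlt.trans_le (min_le_left _ _)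
  have hrR : r * R < ρ / 2 := by
    have := hrlt.trans_le (min_le_right _ _)
    rw [lt_div_iff₀ (by positivity)] at this
    linarith
  obtain ⟨T, hT, hTD⟩ := hr r hr0 hrr
  set D := ⋃ i ∈ T, ⋃ j ∈ T, ⋃ (_ : i ≠ j), homothet K i r ∩ homothet K j r with hD
  have hclosed : ∀ t : E, IsClosed (homothet K t r) := fun t => by
    rw [homothet_eq]
    exact ((hK.smul r).vadd t).isClosed
  have hDc : IsClosed D := by
    refine isClosed_biUnion_finset fun i _ => isClosed_biUnion_finset fun j _ => ?_
    by_cases hij : i = j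
    · simp [hij]
    · simp only [ne_eq, hij, not_false_eq_true, iUnion_true]
      exact (hclosed i).inter (hclosed j)
  obtain ⟨z, hzA, hz⟩ := exists_small_window μ hDc hA0 hA1 (r * R)
  refine ⟨{y | ∃ t ∈ T, y = r⁻¹ • (t - z)}, ?_, ?_⟩
  · intro w hw
    have hwK : z + r • w ∈ K := by
      refine interior_subset (hball ?_)
      rw [mem_ball]
      have h1 : dist (z + r • w) z ≤ r * R := by
        rw [dist_eq_norm, add_sub_cancel_left, norm_smul, Real.norm_of_nonneg hr0.le]
        gcongr
        simpa using hw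
      have h2 : dist z c < ρ / 2 := hzA
      calc dist (z + r • w) c ≤ dist (z + r • w) z + dist z c := dist_triangle _ _ _
        _ < ρ / 2 + ρ / 2 := by linarith
        _ = ρ := by ring
    obtain ⟨t, ht, k, hk, hkt⟩ := hT _ hwK
    refine ⟨_, ⟨t, ht, rfl⟩, ?_⟩
    have : w - r⁻¹ • (t - z) = k := by
      have h3 : r • w = t - z + r • k := by
        rw [← add_right_inj z, hkt]
        abel
      have h4 : w = r⁻¹ • (t - z) + k := by
        rw [← inv_smul_smul₀ hr0.ne' w, h3, smul_add, inv_smul_smul₀ hr0.ne']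
      rw [h4]
      abel
    rw [this]
    exact hk
  · rintro _ ⟨t, ht, rfl⟩ _ ⟨t', ht', rfl⟩ hne' w hw hall
    have htt : t ≠ t' := fun h' => hne' (by rw [h'])
    -- the ball of radius `r s` around `z + r w` is doubly covered
    have hsub : ball (z + r • w) (r * s) ⊆ D ∩ closedBall z (r * R) := by
      intro v hv
      set u := r⁻¹ • (v - z) with hu
      have hv' : v = z + r • u := by
        rw [hu, smul_inv_smul₀ hr0.ne']
        abel
      have hub : u ∈ ball w s := by
        rw [mem_ball, dist_eq_norm]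
        have h5 : ‖v - (z + r • w)‖ < r * s := by simpa [dist_eq_norm] using hv
        have h6 : v - (z + r • w) = r • (u - w) := by
          rw [hv', smul_sub]
          abel
        rw [h6, norm_smul, Real.norm_of_nonneg hr0.le] at h5
        exact lt_of_mul_lt_mul_left h5 hr0.le
      obtain ⟨h7, h8⟩ := hall u hub
      have hmem : ∀ t₁ : E, u - r⁻¹ • (t₁ - z) ∈ K → v ∈ homothet K t₁ r := by
        intro t₁ h9
        refine ⟨_, h9, ?_⟩
        have h10 : r • (u - r⁻¹ • (t₁ - z)) = r • u - (t₁ - z) := by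
          rw [smul_sub r u, smul_inv_smul₀ hr0.ne' (t₁ - z)]
        rw [h10, hv']
        abel
      constructor
      · rw [hD]
        simp only [mem_iUnion]
        exact ⟨t, ht, t', ht', htt, hmem t h7, hmem t' h8⟩
      · have h10 := hw hub
        rw [mem_closedBall, dist_zero_right] at h10
        rw [mem_closedBall, dist_eq_norm, hv', add_sub_cancel_left, norm_smul,
          Real.norm_of_nonneg hr0.le]
        gcongr
    have h11 : μ (ball (z + r • w) (r * s)) ≤ μ (closedBall (0 : E) (r * R)) * μ D / μ A :=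
      (measure_mono hsub).trans hz
    have hrs : 0 < r * s := by positivity
    have hrR0 : 0 ≤ r * R := by positivity
    rw [Measure.addHaar_ball_of_pos μ _ hrs, Measure.addHaar_closedBall μ _ hrR0] at h11
    have h12 : ENNReal.ofReal ((r * R) ^ n) * B * μ D / μ A ≤
        ENNReal.ofReal ((r * R) ^ n) * B * ENNReal.ofReal ((s / R) ^ n / 2) := by
      calc ENNReal.ofReal ((r * R) ^ n) * B * μ D / μ A
          ≤ ENNReal.ofReal ((r * R) ^ n) * B * (μ A * ENNReal.ofReal ((s / R) ^ n / 2)) / μ A := by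
            gcongr
        _ = ENNReal.ofReal ((r * R) ^ n) * B * ENNReal.ofReal ((s / R) ^ n / 2) := by
            rw [← mul_assoc, mul_comm _ (μ A), mul_assoc, mul_comm (μ A), mul_div_assoc,
              ENNReal.div_self hA0 hA1, mul_one]
    have h13 := h11.trans h12
    have h14 : ENNReal.ofReal ((r * R) ^ n) * B * ENNReal.ofReal ((s / R) ^ n / 2) =
        ENNReal.ofReal ((r * s) ^ n / 2) * B := by
      rw [mul_comm _ B, mul_assoc, ← ENNReal.ofReal_mul (by positivity), mul_comm B]
      congr 2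
      rw [div_pow, mul_pow, mul_pow]
      field_simp
    rw [h14] at h13
    have h15 : ENNReal.ofReal ((r * s) ^ n) ≤ ENNReal.ofReal ((r * s) ^ n / 2) :=
      (ENNReal.mul_le_mul_iff_left hB0 hB1).1 h13
    have h16 : 0 < (r * s) ^ n := by positivity
    rw [ENNReal.ofReal_le_ofReal_iff (by positivity)] at h15
    linarith

end Pool.Agent.Lib.MP_825ff6_co
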